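import Pool.Agent.Q282.UK.Exact

/-!
# MP_d72c81_ag: Beilinson-Soule vanishing and systems of bilinear equations
-/

set_option autoImplicit false

open CategoryTheory Limits AlgebraicGeometry Pool.Agent.Y116.UV Pool.Agent.Q282.UM
  Pool.Agent.Q282.UK

namespace Pool.Agent.Results.MP_d72c81_ag.BilinearSystems

universe v u

/-- The functors of motivic cohomology on the category of Chow motives over `k` (contravariant, with
rational coefficients): `mot n j` takes `M(X)` to `H^n(X, ℚ(j))`. -/
structure MotivicCohomology (C : Type u) [Category.{v} C] where
  mot : ℤ → ℤ → C ⥤ ModuleCat.{0} ℚ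

/-- The functors are additive. -/
def IsAdditive {C : Type u} [Category.{v} C] [Preadditive C] (H : MotivicCohomology C) : Prop :=
  ∀ n j, (H.mot n j).Additive

/-- The motivic cohomology `H^n(M, ℚ(j))` of the motive `M` vanishes for all `n < 0` and all `j`. -/
def Vanishes {C : Type u} [Category.{v} C] (H : MotivicCohomology C) (M : C) : Prop :=
  ∀ n j, n < 0 → IsZero ((H.mot n j).obj M)

/-- For all `n < 0` and all `j` the complex `H^n(K, ℚ(j))` is acyclic. -/
def Acyclic {C : Type u} [Category.{v} C] [Preadditive C] {H : MotivicCohomology C}
    (hH : IsAdditive H) (K : HK C) : Prop :=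
  ∀ n j, n < 0 → ZeroK (H.mot n j) (hH n j) K

/-- **Beilinson-Soulé vanishing and systems of bilinear equations.** Let `C` be the category of
effective Chow motives over `k`, and let `W(X)` be the weight complex of the scheme `X` of
finite type over `k`.

* The motivic cohomology `H^n(X, ℚ(j))`, `n < 0`, vanishes for all smooth projective `X` over `k` if
  and only if for all `Y ⊂ 𝔸^{a+b}` given by systems of bilinear equations `∑ T i j l x_i y_j = 0`
  over `k` the complexes `H^n(W(Y), ℚ(j))`, `n < 0`, are acyclic.
* If `k = ℚ` it is enough to consider the systems with coefficients `0` and `1`. -/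
theorem result {C : Type u} [Category.{v} C] [Preadditive C] [HasZeroObject C]
    [HasBinaryBiproducts C] [HasFiniteBiproducts C] (H : MotivicCohomology C)
    (hH : IsAdditive H) :
    (∀ (k : Type) [Field k] (D : Complexes k C), IsContravariant D →
      (ForMotives D (Vanishes H) ↔ ForSystems D (Acyclic hH))) ∧
    ∀ D : Complexes ℚ C, IsContravariant D →
      (ForMotives D (Vanishes H) ↔ ForBinarySystems D (Acyclic hH)) := by
  have h : IsExtension (Vanishes H) (Acyclic hH) :=
    ext_all fun n => ext_all fun j => ext_all fun _ => ext_zero (H.mot n j) (hH n j)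
  exact ⟨fun k _ D hD => systems_con hD h, fun D hD => binary_con presents_rat hD h⟩

end Pool.Agent.Results.MP_d72c81_ag.BilinearSystems
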