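import Pool.Agent.Q137.FK.Main
import Pool.Agent.Q193.LT.Defs

/-!
# The Beilinson–Soulé vanishing conjecture and classes on rational function fields

For a smooth projective scheme `Y` over `ℂ` let `Ch j n Y = CH^j(Y, n)_ℚ` be the higher Chow groups with
rational coefficients, so that `H^i(Y, ℚ(j)) = Ch j (2j - i) Y`, and for a field `K` let
`T.H K i j = H^i(K, ℚ(j)) = CH^j(Spec K, 2j - i)_ℚ`.

`IsTheory` lists the known facts on fields that are used: the groups are functors, and Milnor's exact
sequence for the affine line over a finitely generated extension `K` of `ℂ`,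
`0 → H^{i+1}(K, ℚ(j+1)) → H^{i+1}(K(t), ℚ(j+1)) → ⊕_f H^i(K[t]/(f), ℚ(j)) → 0`,
which follows from the localization sequence and homotopy invariance (it splits by the specialization at
`∞`). `Coniveau` lists the known consequences of the localization sequences for the points of a smooth
projective variety `Y` of dimension `d` over `ℂ`: `H^i(Y, ℚ(j))` is an extension of subquotients of the
groups `H^{i-2p}(κ(y), ℚ(j-p))` of the points `y` of codimension `p ≥ 0`; the restriction
`H^i(Y, ℚ(j)) → H^i(ℂ(Y), ℚ(j))` is onto if `H^{i+1-2p}(κ(y), ℚ(j-p)) = 0` for all the points `y` of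
codimension `p ≥ 1`; and every finitely generated extension of `ℂ` of transcendence degree `d` is the
function field of a smooth projective variety of dimension `d` (Hironaka).

**Theorem.** (1) For all `n`, `i`, `j`: the map
`H^{i+1}(ℂ, ℚ(j+1)) → H^{i+1}(ℂ(x_1, …, x_n), ℚ(j+1))` is surjective if and only if
`H^i(L, ℚ(j)) = 0` for all finitely generated extensions `L` of `ℂ` of transcendence degree less than `n`.

(2) For all `n` and `J`: `H^i(Y, ℚ(j)) = 0` for all smooth projective `Y` over `ℂ` of dimension at most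
`n`, all `i < 0` and all `j < J`, if and only if `H^i(ℂ, ℚ(j)) → H^i(ℂ(x_1, …, x_{n+1}), ℚ(j))` is
surjective for all `i ≤ 0` and all `j ≤ J`.

(3) `H^i(Y, ℚ(j)) = 0` for all smooth projective `Y` over `ℂ` (of dimension at most `n`, for all `n`), all
`i < 0` and all `j`, if and only if
`H^i(ℂ, ℚ(j)) → H^i(ℂ(x_1, …, x_n), ℚ(j))` is surjective for all `n`, all `i ≤ 0` and all `j`.

No assumption on the groups `H^i(ℂ, ℚ(j))` is made (their vanishing for `i < 0` is part of the
conjecture).
-/

set_option autoImplicit false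

open Polynomial AlgebraicGeometry Pool.Agent.Y116.UV Pool.Agent.Q193.LT Pool.Agent.Q137.FK

universe w w'

namespace Pool.Agent.Results.MP_d72c81_ag.ConstantClasses

/-- `H^i(Y, ℚ(j)) = 0` for the smooth projective schemes `Y` over `ℂ` of dimension at most `n`. -/
def VanishUpTo (Ch : ℤ → ℤ → Sch ℂ → ModuleCat.{w'} ℚ) (n : ℕ) (i j : ℤ) : Prop :=
  ∀ Y : Sch ℂ, SmoothProj Y → topologicalKrullDim Y.left ≤ n → Subsingleton (Ch j (2 * j - i) Y)

/-- The known consequences of the localization sequences for the points of smooth projective schemes. -/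
structure Coniveau (Ch : ℤ → ℤ → Sch ℂ → ModuleCat.{w'} ℚ) (T : Theory.{w}) : Prop where
  points : ∀ (d : ℕ) (i j : ℤ), (∀ p m : ℕ, p + m ≤ d → ZeroFG T ℂ m (i - 2 * p) (j - p)) →
    VanishUpTo Ch d i j
  generic : ∀ (d : ℕ) (i j : ℤ), (∀ p m : ℕ, 1 ≤ p → p + m ≤ d →
    ZeroFG T ℂ m (i + 1 - 2 * p) (j - p)) → VanishUpTo Ch d i j → ZeroFG T ℂ d i j

/-- Smooth projective schemes of dimension at most `n`, and fields. -/
lemma smooth_iff {Ch : ℤ → ℤ → Sch ℂ → ModuleCat.{w'} ℚ} {T : Theory.{w}} (h : Coniveau Ch T)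
    (n : ℕ) (J : ℤ) : (∀ i j : ℤ, i < 0 → j < J → VanishUpTo Ch n i j) ↔
      ∀ i j : ℤ, i < 0 → j < J → ∀ m < n + 1, ZeroFG T ℂ m i j := by
  constructor
  · intro g
    have key : ∀ m : ℕ, m < n + 1 → ∀ i j : ℤ, i < 0 → j < J → ZeroFG T ℂ m i j := by
      intro m
      induction m using Nat.strong_induction_on with
      | h m ih =>
        intro hm i j hi hj
        refine h.generic m i j (fun p m' hp hpm => ih m' (by omega) (by omega) _ _ (by omega)
          (by omega)) fun Y hY hd => g i j hi hj Y hY (hd.trans ?_)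
        exact_mod_cast Nat.lt_succ_iff.1 hm
    exact fun i j hi hj m hm => key m hm i j hi hj
  · intro g i j hi hj
    exact h.points n i j fun p m hpm => g _ _ (by omega) (by omega) m (by omega)

/-- **The Beilinson–Soulé vanishing conjecture and classes on rational function fields.** See the
explanations above. -/
theorem result {Ch : ℤ → ℤ → Sch ℂ → ModuleCat.{w'} ℚ} {T : Theory.{w}} (hT : IsTheory ℂ T)
    (h : Coniveau Ch T) :
    (∀ (n : ℕ) (i j : ℤ), Constant T ℂ n (i + 1) (j + 1) ↔ ∀ m < n, ZeroFG T ℂ m i j) ∧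
    (∀ (n : ℕ) (J : ℤ), (∀ i j : ℤ, i < 0 → j < J → VanishUpTo Ch n i j) ↔
      ∀ i j : ℤ, i ≤ 0 → j ≤ J → Constant T ℂ (n + 1) i j) ∧
    ((∀ (n : ℕ) (i j : ℤ), i < 0 → VanishUpTo Ch n i j) ↔
      ∀ (n : ℕ) (i j : ℤ), i ≤ 0 → Constant T ℂ n i j) := by
  have h1 := constant_iff hT
  have h2 : ∀ (n : ℕ) (J : ℤ), (∀ i j : ℤ, i < 0 → j < J → VanishUpTo Ch n i j) ↔
      ∀ i j : ℤ, i ≤ 0 → j ≤ J → Constant T ℂ (n + 1) i j := by
    intro n J
    rw [smooth_iff h]
    constructor
    · intro g i j hi hj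
      have h3 := (h1 (n + 1) (i - 1) (j - 1)).2 (g _ _ (by omega) (by omega))
      rwa [sub_add_cancel, sub_add_cancel] at h3
    · intro g i j hi hj
      exact (h1 (n + 1) i j).1 (g _ _ (by omega) (by omega))
  refine ⟨h1, h2, ?_⟩
  constructor
  · intro g n i j hi
    have h3 := (h2 n j).1 (fun i' j' hi' _ => g n i' j' hi') i j hi le_rfl
    have h4 := (h1 (n + 1) (i - 1) (j - 1)).1 (by rwa [sub_add_cancel, sub_add_cancel])
    have h5 := (h1 n (i - 1) (j - 1)).2 fun m hm => h4 m (Nat.lt_succ_of_lt hm)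
    rwa [sub_add_cancel, sub_add_cancel] at h5
  · intro g n i j hi
    exact (h2 n (j + 1)).2 (fun i' j' hi' _ => g (n + 1) i' j' hi') i j hi (by omega)

end Pool.Agent.Results.MP_d72c81_ag.ConstantClasses
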