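import Pool.Agent.Q137.UP.Main

/-!
# The Beilinson–Soulé vanishing conjecture, one degree and one twist at a time

For a smooth projective scheme `Y` over `ℂ` let `Ch j n Y = CH^j(Y, n)_ℚ` be the higher Chow groups of
Bloch with rational coefficients (zero for `j < 0` or `n < 0`), so that `H^k(Y, ℚ(j)) = Ch j (2j - k) Y`.
For every `n`, `CH^j(Y, n)_ℚ` is an additive functor of the Chow motive of `Y`.

For a separated scheme `X` of finite type over `ℂ` let `W(X)` be the weight complex (Gillet, Soulé; a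
complex of Chow motives over `ℂ` with rational coefficients, for the cohomology with compact supports;
`W(X) = h(X)` for smooth projective `X`), and put `G n (j, s) X = H^s(CH^j(W(X), n)_ℚ)`. For smooth
projective `Y` the groups for `s ≠ 0` are zero and `G n (j, 0) Y = CH^j(Y, n)_ℚ`.

Over `ℂ` the vanishing is not known for the point, and no assumption on the point is made here.

**Theorem.** (1) For all integers `j` and `k`, and `n = 2j - k`: `H^k(Y, ℚ(j)) = CH^j(Y, n)_ℚ` is zero for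
all smooth projective varieties `Y` over `ℂ` if and only if `G n (j + a - 1, s) X = 0` for all `s`, all
`a`, and the smooth affine cubic hypersurfaces `X : T(x, y, z) = 1` of all trilinear forms `T` over `ℂ` in
`a` variables `x` (and any numbers of variables `y` and `z`).

(2) The groups `G n (m, s) X` are zero for all `s`, `m ≤ a` and `m < n + a - 1`, and these hypersurfaces.
-/

set_option autoImplicit false

open CategoryTheory CategoryTheory.Limits AlgebraicGeometry Pool.Agent.Y116.UV Pool.Agent.Z125.UN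
  Pool.Agent.Q193.LT Pool.Agent.Q49.WU Pool.Agent.Q137.UP

universe w w'

namespace Pool.Agent.Results.MP_d72c81_ag.OneDegreeCubics

/-- The group `H^k(Y, ℚ(j)) = CH^j(Y, 2j - k)_ℚ` is zero for all smooth projective varieties `Y`
over `ℂ`. -/
def VanishingAt (Ch : ℤ → ℤ → Sch ℂ → ModuleCat.{w'} ℚ) (k j : ℤ) : Prop :=
  ∀ Y : Sch ℂ, SmoothProj Y → Subsingleton (Ch j (2 * j - k) Y)

/-- The groups `G (j, s) X` are zero for all `s`. -/
def VanishAt (G : ℤ × ℤ → Sch ℂ → ModuleCat.{w} ℚ) (j : ℤ) (X : Sch ℂ) : Prop :=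
  ∀ s : ℤ, Subsingleton (G (j, s) X)

/-- The groups `G (j, s) X` with the maps to zero. -/
noncomputable def toZero (G : ℤ × ℤ → Sch ℂ → ModuleCat.{w} ℚ) : PairData.{w} ℂ (ℤ × ℤ) ℚ where
  A := G
  B := fun _ _ => ModuleCat.of ℚ PUnit
  ρ := fun _ _ => 0

lemma bij_toZero (G : ℤ × ℤ → Sch ℂ → ModuleCat.{w} ℚ) (n : ℤ) (X : Sch ℂ) :
    BijAt (toZero G) Prod.fst n X ↔ VanishAt G n X := by
  constructor
  · intro h i
    exact ⟨fun a b => (h (n, i) rfl).1 rfl⟩
  · rintro h ⟨m, i⟩ rfl
    have := h i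
    exact ⟨fun a b _ => Subsingleton.elim (α := G (m, i) X) a b, fun b => ⟨0, rfl⟩⟩

/-- What is used: `G n (j, 0) Y = CH^j(Y, n)_ℚ` and `G n (j, s) Y = 0` for `s ≠ 0` and smooth projective
`Y`, and the known standard properties of weight complexes. -/
structure Describes (Ch : ℤ → ℤ → Sch ℂ → ModuleCat.{w'} ℚ)
    (G : ℤ → ℤ × ℤ → Sch ℂ → ModuleCat.{w} ℚ) : Prop where
  groups : ∀ (j n : ℤ) (Y : Sch ℂ), SmoothProj Y → (Subsingleton (Ch j n Y) ↔ VanishAt (G n) j Y)
  weight : ∀ n : ℤ, IsWeightPair (toZero (G n))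
  generated : ∀ n : ℤ, GenAt (toZero (G n)) Prod.fst

/-- **The Beilinson–Soulé vanishing conjecture, one degree and one twist at a time.** See the explanations
above. Known cases that are used in (2): `CH^j(Y, n)_ℚ = 0` for `j ≤ 1` and `j < n`. -/
theorem result {Ch : ℤ → ℤ → Sch ℂ → ModuleCat.{w'} ℚ} {G : ℤ → ℤ × ℤ → Sch ℂ → ModuleCat.{w} ℚ}
    (h : Describes Ch G) :
    (∀ k j : ℤ, VanishingAt Ch k j ↔ ∀ (a b c : ℕ) (T : Fin a → Fin b → Fin c → ℂ),
      VanishAt (G (2 * j - k)) (j + (a - 1)) (hypS T)) ∧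
    ((∀ j n : ℤ, j ≤ 1 → j < n → ∀ Y : Sch ℂ, SmoothProj Y → Subsingleton (Ch j n Y)) →
      ∀ (a b c : ℕ) (T : Fin a → Fin b → Fin c → ℂ) (n m : ℤ), m ≤ a → m < n + (a - 1) →
        VanishAt (G n) m (hypS T)) := by
  have h1 : ∀ n j : ℤ, (∀ Y : Sch ℂ, SmoothProj Y → Subsingleton (Ch j n Y)) ↔
      ∀ (a b c : ℕ) (T : Fin a → Fin b → Fin c → ℂ), VanishAt (G n) (j + (a - 1)) (hypS T) := by
    intro n j
    have h2 := sp_forms (h.generated n) (h.weight n) graded_weight j
    constructor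
    · intro g a b c T
      exact (bij_toZero _ _ _).mp (h2.mp (fun Y hY => (bij_toZero _ _ _).mpr
        ((h.groups j n Y hY).mp (g Y hY))) a b c T)
    · intro g Y hY
      exact (h.groups j n Y hY).mpr ((bij_toZero _ _ _).mp (h2.mpr (fun a b c T =>
        (bij_toZero _ _ _).mpr (g a b c T)) Y hY))
  refine ⟨fun k j => h1 (2 * j - k) j, fun g a b c T n m hm hn => ?_⟩
  have h2 := (h1 n (m - (a - 1))).mp (g _ _ (by linarith) (by linarith)) a b c T
  rwa [sub_add_cancel] at h2

end Pool.Agent.Results.MP_d72c81_ag.OneDegreeCubics
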