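import Pool.Agent.Q73.BV.Main

/-!
# The Beilinson-Soulé vanishing and quotients by algebraic groups

Let `X ⟶ Y` be a torsor of smooth complex varieties under an algebraic group `G`. If the rational
motivic cohomology of `X` vanishes in negative degrees, then so does the one of `Y`; if `G` is
connected and linear, the converse holds as well. The same is true for the vanishing in all degrees
`k < 0` and for all twists `j ≤ J`, and for the strong vanishing `k ≤ 0 < j ≤ J`.

Key point: for a torsor under the multiplicative group the Gysin sequence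
`H^(k-2)(Y, j-1) ⟶ H^k(Y, j) ⟶ H^k(X, j) ⟶ H^(k-1)(Y, j-1)` and the vanishing for `X` make the
group `H^k(Y, j)` a quotient of `H^(k-2i)(Y, j-i)` for all `i`.

Applied to the frames of tangent bundles: for every smooth variety `Y`, for instance for every smooth
projective variety, there is one smooth complete intersection `X` in an affine space, with trivial
tangent bundle, for which the vanishing is equivalent to the one for `Y`.
-/

set_option autoImplicit false

namespace Pool.Agent.Results.MP_d72c81_ag.QuotientsByAlgebraicGroups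

open Pool.Agent.Q73.BV

universe u w

/-- **The Beilinson-Soulé vanishing and quotients by algebraic groups.** -/
theorem result (D : Varieties.{u, w}) (hD : D.IsCohomology) :
    -- the relevant sets of degrees are good
    (Good (fun k _ => k < 0) ∧ (∀ J : ℤ, Good (fun k j => k < 0 ∧ j ≤ J)) ∧
      ∀ J : ℤ, Good (fun k j => k ≤ 0 ∧ 1 ≤ j ∧ j ≤ J)) ∧
    ∀ S : ℤ → ℤ → Prop, Good S →
      -- (1) quotients by free actions of algebraic groups
      (∀ X Y : D.Var, D.Torsor X Y → D.Vanish S X → D.Vanish S Y) ∧
      -- (2) connected linear groups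
      (∀ X Y : D.Var, D.Joined X Y → (D.Vanish S X ↔ D.Vanish S Y)) ∧
      -- (3) complete intersections with trivial tangent bundle
      (D.FrameBundles → (∀ Y : D.Var, ∃ X : D.Var, D.Special X ∧
          ∀ S' : ℤ → ℤ → Prop, Good S' → (D.Vanish S' X ↔ D.Vanish S' Y)) ∧
        (D.Localization → ((∀ Y : D.Var, D.Projective Y → D.Vanish S Y) ↔
          ∀ X : D.Var, D.Special X → D.Vanish S X))) := by
  refine ⟨⟨good_neg, good_below, good_strong⟩, fun S hS =>
    ⟨fun X Y h => torsor_imp hD hS h, fun X Y h => joined_iff hD hS h, fun hN => ?_⟩⟩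
  have h3 : ∀ Y : D.Var, ∃ X : D.Var, D.Special X ∧
      ∀ S' : ℤ → ℤ → Prop, Good S' → (D.Vanish S' X ↔ D.Vanish S' Y) := by
    intro Y
    obtain ⟨Y', X, a1, a2, a3⟩ := hN Y
    exact ⟨X, a3, fun S' hS' => (linear_iff hD hS' a2).trans (affine_iff hD a1)⟩
  refine ⟨h3, fun hL => ⟨fun h X _ => hL S hS h X, fun h Y _ => ?_⟩⟩
  obtain ⟨X, b1, b2⟩ := h3 Y
  exact (b2 S hS).1 (h X b1)

end Pool.Agent.Results.MP_d72c81_ag.QuotientsByAlgebraicGroups
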